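import Mathlib

/-!
# Limit chain points of a semi-flow and of its time-`T` maps
-/

set_option autoImplicit false
open Filter Topology Set

namespace Pool.Agent.Results.MP_f2fc76_an.LimitChainTimeT

/-- A (jointly continuous) semi-flow `(F^t)_{t ≥ 0}` on `X`; only the values for `t ≥ 0` matter. -/
structure SemiFlow (X : Type) [MetricSpace X] where
  /-- the maps `F^t` -/
  map : ℝ → X → X
  zero : ∀ x, map 0 x = x
  add : ∀ s t x, 0 ≤ s → 0 ≤ t → map (s + t) x = map s (map t x)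
  cont : ContinuousOn (fun p : ℝ × X => map p.1 p.2) (Ici 0 ×ˢ univ)

variable {X : Type} [MetricSpace X]

/-- `z : [0, τ] → X` is piecewise continuous: continuous except at finitely many points, with
one-sided limits everywhere. -/
def PiecewiseContinuous (z : ℝ → X) (τ : ℝ) : Prop :=
  (∃ S : Finset ℝ, ∀ t ∈ Icc 0 τ, t ∉ S → ContinuousWithinAt z (Icc 0 τ) t) ∧
  (∀ t, 0 < t → t ≤ τ → ∃ l, Tendsto z (𝓝[<] t) (𝓝 l)) ∧
  (∀ t, 0 ≤ t → t < τ → ∃ r, Tendsto z (𝓝[>] t) (𝓝 r))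

/-- There is an `ε`-chain of duration `τ` from `x` to `y` in `K` for the semi-flow `F`. -/
def ContChain (F : SemiFlow X) (ε : ℝ) (K : Set X) (x y : X) (τ : ℝ) : Prop :=
  1 ≤ τ ∧ ∃ z : ℝ → X, PiecewiseContinuous z τ ∧ z 0 = x ∧ z τ = y ∧ (∀ t ∈ Icc 0 τ, z t ∈ K) ∧
    ∀ t₀ t₁, 0 ≤ t₀ → t₀ < t₁ → t₁ ≤ τ → t₁ - t₀ ≤ 1 → dist (F.map (t₁ - t₀) (z t₀)) (z t₁) < ε

/-- There is an `ε`-chain of duration `n` from `x` to `y` in `K` for the map `g`. -/
def DiscreteChain (g : X → X) (ε : ℝ) (K : Set X) (x y : X) (n : ℕ) : Prop :=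
  1 ≤ n ∧ ∃ z : ℕ → X, z 0 = x ∧ z n = y ∧ (∀ i ≤ n, z i ∈ K) ∧
    ∀ i < n, dist (g (z i)) (z (i + 1)) < ε

/-- `y` is a limit chain point of `x` for the semi-flow `F`. -/
def LimitChainFlow (F : SemiFlow X) (x y : X) : Prop :=
  ∃ K : Set X, IsCompact K ∧ ∃ D : ℝ → ℝ, Tendsto D (𝓝[>] 0) atTop ∧
    ∀ ε, 0 < ε → ContChain F ε K x y (D ε)

/-- `y` is a limit chain point of `x` for the map `g`. -/
def LimitChainMap (g : X → X) (x y : X) : Prop :=
  ∃ K : Set X, IsCompact K ∧ ∃ D : ℝ → ℕ, Tendsto D (𝓝[>] 0) atTop ∧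
    ∀ ε, 0 < ε → DiscreteChain g ε K x y (D ε)

theorem flow_iff (F : SemiFlow X) (x y : X) : LimitChainFlow F x y ↔
    ∃ K : Set X, IsCompact K ∧ ∀ ε, 0 < ε → ∀ N : ℝ, ∃ τ, N ≤ τ ∧ ContChain F ε K x y τ := by
  constructor
  · rintro ⟨K, hK, D, hD, h⟩
    refine ⟨K, hK, fun ε hε N => ?_⟩
    have h1 : ∀ᶠ e in 𝓝[>] (0:ℝ), e < ε := by
      filter_upwards [Ioo_mem_nhdsGT hε] with e he using he.2
    obtain ⟨e, he1, he2, he3⟩ :=
      ((hD.eventually_ge_atTop N).and (h1.and self_mem_nhdsWithin)).exists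
    obtain ⟨h1, z, hz1, hz2, hz3, hz4, hz5⟩ := h e he3
    exact ⟨D e, he1, h1, z, hz1, hz2, hz3, hz4,
      fun t₀ t₁ a b c d => (hz5 t₀ t₁ a b c d).trans he2⟩
  · rintro ⟨K, hK, h⟩
    choose! τ hτ1 hτ2 using h
    refine ⟨K, hK, fun ε => τ ε (1 / ε), ?_, fun ε hε => hτ2 ε hε _⟩
    have h1 : Tendsto (fun ε : ℝ => 1 / ε) (𝓝[>] 0) atTop := by
      simpa using tendsto_inv_nhdsGT_zero (𝕜 := ℝ)
    refine tendsto_atTop_mono' _ ?_ h1
    filter_upwards [self_mem_nhdsWithin] with ε hε using hτ1 ε hε _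

theorem map_iff (g : X → X) (x y : X) : LimitChainMap g x y ↔
    ∃ K : Set X, IsCompact K ∧ ∀ ε, 0 < ε → ∀ N : ℕ, ∃ n, N ≤ n ∧ DiscreteChain g ε K x y n := by
  constructor
  · rintro ⟨K, hK, D, hD, h⟩
    refine ⟨K, hK, fun ε hε N => ?_⟩
    have h1 : ∀ᶠ e in 𝓝[>] (0:ℝ), e < ε := by
      filter_upwards [Ioo_mem_nhdsGT hε] with e he using he.2
    obtain ⟨e, he1, he2, he3⟩ :=
      ((hD.eventually_ge_atTop N).and (h1.and self_mem_nhdsWithin)).exists
    obtain ⟨h1, z, hz2, hz3, hz4, hz5⟩ := h e he3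
    exact ⟨D e, he1, h1, z, hz2, hz3, hz4, fun i hi => (hz5 i hi).trans he2⟩
  · rintro ⟨K, hK, h⟩
    choose! τ hτ1 hτ2 using h
    refine ⟨K, hK, fun ε => τ ε ⌈1 / ε⌉₊, ?_, fun ε hε => hτ2 ε hε _⟩
    have h1 : Tendsto (fun ε : ℝ => ⌈1 / ε⌉₊) (𝓝[>] 0) atTop := by
      have h2 : Tendsto (fun ε : ℝ => 1 / ε) (𝓝[>] 0) atTop := by
        simpa using tendsto_inv_nhdsGT_zero (𝕜 := ℝ)
      exact tendsto_nat_ceil_atTop.comp h2
    refine tendsto_atTop_mono' _ ?_ h1
    filter_upwards [self_mem_nhdsWithin] with ε hε using hτ1 ε hε _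

/-- the compact set swept by `K` in time `[0, S]` -/
def sweep (F : SemiFlow X) (S : ℝ) (K : Set X) : Set X :=
  (fun p : ℝ × X => F.map p.1 p.2) '' (Icc 0 S ×ˢ K)

theorem sweep_compact (F : SemiFlow X) (S : ℝ) (K : Set X) (hK : IsCompact K) :
    IsCompact (sweep F S K) := by
  refine (isCompact_Icc.prod hK).image_of_continuousOn (F.cont.mono ?_)
  exact prod_mono (fun t ht => ht.1) (subset_univ _)

theorem mem_sweep (F : SemiFlow X) (S : ℝ) (K : Set X) (t : ℝ) (x : X) (h0 : 0 ≤ t) (h1 : t ≤ S)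
    (hx : x ∈ K) : F.map t x ∈ sweep F S K := ⟨(t, x), ⟨⟨h0, h1⟩, hx⟩, rfl⟩

theorem sub_sweep (F : SemiFlow X) (S : ℝ) (hS : 0 ≤ S) (K : Set X) : K ⊆ sweep F S K := by
  intro x hx
  have := mem_sweep F S K 0 x le_rfl hS hx
  rwa [F.zero] at this

theorem unif (F : SemiFlow X) (S : ℝ) (K : Set X) (hK : IsCompact K) (ε : ℝ) (hε : 0 < ε) :
    ∃ δ, 0 < δ ∧ ∀ s ∈ Icc 0 S, ∀ s' ∈ Icc 0 S, ∀ x ∈ K, ∀ x' ∈ K, |s - s'| < δ → dist x x' < δ →
      dist (F.map s x) (F.map s' x') < ε := by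
  have hc : ContinuousOn (fun p : ℝ × X => F.map p.1 p.2) (Icc 0 S ×ˢ K) :=
    F.cont.mono (prod_mono (fun t ht => ht.1) (subset_univ _))
  have hu := (isCompact_Icc.prod hK).uniformContinuousOn_of_continuous hc
  obtain ⟨δ, hδ, h⟩ := Metric.uniformContinuousOn_iff.mp hu ε hε
  refine ⟨δ, hδ, fun s hs s' hs' x hx x' hx' h1 h2 => ?_⟩
  exact h (s, x) ⟨hs, hx⟩ (s', x') ⟨hs', hx'⟩ (by
    rw [Prod.dist_eq]
    exact max_lt (by rwa [Real.dist_eq]) h2)

/-- error propagation along a continuous chain -/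
theorem prop_cont (F : SemiFlow X) (S : ℝ) (hS : 0 ≤ S) (K : Set X) (hK : IsCompact K) (j : ℕ) :
    ∀ η, 0 < η → ∃ ε, 0 < ε ∧ ∀ (z : ℝ → X) (τ : ℝ), (∀ t ∈ Icc 0 τ, z t ∈ K) →
      (∀ t₀ t₁, 0 ≤ t₀ → t₀ < t₁ → t₁ ≤ τ → t₁ - t₀ ≤ 1 →
        dist (F.map (t₁ - t₀) (z t₀)) (z t₁) < ε) →
      ∀ t s, 0 ≤ t → 0 ≤ s → s ≤ 1 → t + j * s ≤ τ → j * s ≤ S →
        dist (F.map (j * s) (z t)) (z (t + j * s)) < η := by
  induction j with
  | zero =>
    intro η hη
    refine ⟨1, one_pos, ?_⟩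
    intro z τ _ _ t s _ _ _ _ _
    simp only [CharP.cast_eq_zero, zero_mul, add_zero, F.zero, dist_self]
    exact hη
  | succ j ih =>
    intro η hη
    obtain ⟨δ, hδ, hu⟩ := unif F 1 (sweep F S K) (sweep_compact F S K hK) (η / 2) (by positivity)
    obtain ⟨ε, hε, h⟩ := ih δ hδ
    refine ⟨min ε (η / 2), lt_min hε (by positivity), ?_⟩
    intro z τ hz hch t s ht hs hs1 hτ hjs
    push_cast at hτ hjs ⊢
    have hjs0 : 0 ≤ (j:ℝ) * s := by positivity
    have h1 := h z τ hz (fun t₀ t₁ a b c d => (hch t₀ t₁ a b c d).trans_le (min_le_left _ _))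
      t s ht hs hs1 (by linarith) (by linarith)
    have e1 : ((j:ℝ) + 1) * s = s + j * s := by ring
    have hmem1 : z t ∈ K := hz t ⟨ht, by linarith⟩
    have hmem2 : z (t + j * s) ∈ K := hz _ ⟨by positivity, by linarith⟩
    have h2 := hu s ⟨hs, hs1⟩ s ⟨hs, hs1⟩ (F.map (j * s) (z t))
      (mem_sweep F S K _ _ hjs0 (by linarith) hmem1) (z (t + j * s)) (sub_sweep F S hS K hmem2)
      (by rw [sub_self, abs_zero]; exact hδ) h1
    have h3 : dist (F.map s (z (t + j * s))) (z (t + (s + j * s))) < η / 2 := by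
      rcases hs.eq_or_lt with h0 | h0
      · rw [← h0]
        simp only [mul_zero, add_zero, F.zero, dist_self]
        positivity
      · have := hch (t + j * s) (t + (s + j * s)) (by positivity) (by linarith) (by linarith)
          (by linarith)
        have e : t + (s + j * s) - (t + j * s) = s := by ring
        rw [e] at this
        exact this.trans_le (min_le_right _ _)
    rw [e1, F.add s (j * s) _ hs hjs0]
    calc _ ≤ dist (F.map s (F.map (j * s) (z t))) (F.map s (z (t + j * s)))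
          + dist (F.map s (z (t + j * s))) (z (t + (s + j * s))) := dist_triangle _ _ _
      _ < η := by linarith

/-- error propagation along a discrete chain -/
theorem prop_disc (F : SemiFlow X) (T : ℝ) (hT : 0 < T) (K : Set X) (hK : IsCompact K) (J : ℕ) :
    ∀ η, 0 < η → ∃ δ, 0 < δ ∧ ∀ (w : ℕ → X) (m : ℕ), (∀ i ≤ m, w i ∈ K) →
      (∀ i < m, dist (F.map T (w i)) (w (i + 1)) < δ) →
      ∀ j ≤ J, ∀ a, a + j ≤ m → dist (F.map (j * T) (w a)) (w (a + j)) < η := by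
  induction J with
  | zero =>
    intro η hη
    refine ⟨1, one_pos, ?_⟩
    intro w m _ _ j hj a _
    have : j = 0 := by omega
    subst this
    simp only [CharP.cast_eq_zero, zero_mul, add_zero, F.zero, dist_self]
    exact hη
  | succ J ih =>
    intro η hη
    obtain ⟨δ, hδ, hu⟩ := unif F T (sweep F (J * T) K) (sweep_compact F _ K hK) (η / 2)
      (by positivity)
    obtain ⟨ε, hε, h⟩ := ih (min δ η) (lt_min hδ hη)
    refine ⟨min ε (η / 2), lt_min hε (by positivity), ?_⟩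
    intro w m hw hch j hj a ham
    rcases Nat.lt_or_ge j (J + 1) with hlt | hge
    · exact (h w m hw (fun i hi => (hch i hi).trans_le (min_le_left _ _)) j (by omega) a
        ham).trans_le (min_le_right _ _)
    · have hjJ : j = J + 1 := by omega
      subst hjJ
      have h1 := h w m hw (fun i hi => (hch i hi).trans_le (min_le_left _ _)) J le_rfl a (by omega)
      have hJT : 0 ≤ (J:ℝ) * T := by positivity
      have h2 := hu T ⟨hT.le, le_rfl⟩ T ⟨hT.le, le_rfl⟩ (F.map (J * T) (w a))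
        (mem_sweep F _ K _ _ hJT le_rfl (hw a (by omega))) (w (a + J))
        (sub_sweep F _ hJT K (hw _ (by omega))) (by rw [sub_self, abs_zero]; exact hδ)
        (h1.trans_le (min_le_left _ _))
      have h3 := (hch (a + J) (by omega)).trans_le (min_le_right _ _)
      have e1 : ((J + 1 : ℕ) : ℝ) * T = T + J * T := by push_cast; ring
      rw [e1, F.add T (J * T) _ hT.le hJT]
      calc _ ≤ dist (F.map T (F.map (J * T) (w a))) (F.map T (w (a + J)))
            + dist (F.map T (w (a + J))) (w (a + (J + 1))) := dist_triangle _ _ _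
        _ < η := by
          have e2 : a + (J + 1) = a + J + 1 := by omega
          rw [e2]
          linarith

theorem flow_to_map (F : SemiFlow X) (T : ℝ) (hT : 0 < T) (x y : X) (h : LimitChainFlow F x y) :
    LimitChainMap (F.map T) x y := by
  rw [flow_iff] at h
  rw [map_iff]
  obtain ⟨K, hK, h⟩ := h
  refine ⟨K, hK, fun ε hε N => ?_⟩
  set q : ℕ := ⌈2 * T⌉₊ + 1 with hq
  have hq2 : 2 * T ≤ q := by
    have := Nat.le_ceil (2 * T)
    rw [hq]; push_cast; linarith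
  have hq0 : (0:ℝ) < q := by linarith
  obtain ⟨e1, he1, hprop⟩ := prop_cont F (2 * T) (by positivity) K hK q (ε / 2) (by positivity)
  obtain ⟨δ, hδ, hu⟩ := unif F (2 * T) K hK (ε / 2) (by positivity)
  obtain ⟨τ, hτ, hτ1, z, -, hz0, hzτ, hzK, hz⟩ := h e1 he1 (max ((N + 1) * T) ((T / δ + 2) * T))
  have hτa : (N + 1) * T ≤ τ := (le_max_left _ _).trans hτ
  have hτb : (T / δ + 2) * T ≤ τ := (le_max_right _ _).trans hτ
  set m : ℕ := ⌊τ / T⌋₊ with hm
  have hτ0 : 0 ≤ τ / T := by positivity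
  have m1 : (m:ℝ) ≤ τ / T := Nat.floor_le hτ0
  have m2 : τ / T < m + 1 := Nat.lt_floor_add_one _
  have m1' : (m:ℝ) * T ≤ τ := by rwa [le_div_iff₀ hT] at m1
  have m2' : τ < (m + 1) * T := by rwa [div_lt_iff₀ hT] at m2
  have hNm : N + 1 ≤ m := by
    apply Nat.le_floor
    rw [le_div_iff₀ hT]
    push_cast
    exact hτa
  have hm0 : (0:ℝ) < m := by exact_mod_cast (by omega : 0 < m)
  have hmδ : T / δ < m := by
    have : T / δ + 2 ≤ τ / T := by rwa [le_div_iff₀ hT]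
    linarith
  set s : ℝ := τ / m with hs
  have hsT : T ≤ s := by rw [hs, le_div_iff₀ hm0]; linarith
  have hm1 : (1:ℝ) ≤ m := by exact_mod_cast (by omega : 1 ≤ m)
  have hs2T : s ≤ 2 * T := by
    rw [hs, div_le_iff₀ hm0]
    nlinarith
  have hsT' : s - T < δ := by
    have h1 : s - T < T / m := by
      rw [hs, lt_div_iff₀ hm0, sub_mul, div_mul_cancel₀ _ hm0.ne']
      linarith
    have h2 : T / m < δ := by
      rw [div_lt_iff₀ hm0]
      rw [div_lt_iff₀ hδ] at hmδ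
      linarith
    linarith
  have hms : (m:ℝ) * s = τ := by rw [hs]; field_simp
  refine ⟨m, by omega, by omega, fun i => z (i * s), ?_, ?_, ?_, ?_⟩
  · simp only [CharP.cast_eq_zero, zero_mul]; exact hz0
  · simp only [hms]; exact hzτ
  · intro i hi
    have : (i:ℝ) ≤ m := by exact_mod_cast hi
    refine hzK _ ⟨by positivity, ?_⟩
    rw [← hms]
    gcongr
  · intro i hi
    have hi' : (i:ℝ) + 1 ≤ m := by exact_mod_cast hi
    have hi0 : (0:ℝ) ≤ i := Nat.cast_nonneg i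
    have hile : ((i:ℝ) + 1) * s ≤ τ := by
      rw [← hms]
      exact mul_le_mul_of_nonneg_right hi' (by linarith)
    have hmem : z (i * s) ∈ K := hzK _ ⟨by positivity, by nlinarith⟩
    have a1 := hprop z τ hzK hz (i * s) (s / q) (by positivity) (by positivity)
      (by rw [div_le_one hq0]; linarith)
      (by rw [mul_div_cancel₀ _ hq0.ne']; linarith) (by rw [mul_div_cancel₀ _ hq0.ne']; exact hs2T)
    rw [mul_div_cancel₀ _ hq0.ne'] at a1
    have a2 := hu T ⟨hT.le, by linarith⟩ s ⟨by linarith, hs2T⟩ _ hmem _ hmem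
      (by rw [abs_sub_comm, abs_of_nonneg (by linarith)]; exact hsT') (by rw [dist_self]; exact hδ)
    have e2 : ((i + 1 : ℕ) : ℝ) * s = i * s + s := by push_cast; ring
    simp only [e2]
    calc _ ≤ dist (F.map T (z (i * s))) (F.map s (z (i * s)))
          + dist (F.map s (z (i * s))) (z (i * s + s)) := dist_triangle _ _ _
      _ < ε := by linarith

/-- the concatenation of orbit pieces -/
noncomputable def concat (F : SemiFlow X) (T : ℝ) (w : ℕ → X) (t : ℝ) : X :=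
  F.map (t - ⌊t / T⌋₊ * T) (w ⌊t / T⌋₊)

theorem floor_eq (T : ℝ) (hT : 0 < T) (a : ℕ) (t : ℝ) (h0 : a * T ≤ t) (h1 : t < (a + 1) * T) :
    ⌊t / T⌋₊ = a := by
  have hnn : 0 ≤ t / T := by
    have : (0:ℝ) ≤ a * T := by positivity
    exact div_nonneg (by linarith) hT.le
  rw [Nat.floor_eq_iff hnn]
  constructor
  · rwa [le_div_iff₀ hT]
  · rwa [div_lt_iff₀ hT]

theorem piece_cont (F : SemiFlow X) (v : X) (c t : ℝ) (hc : c ≤ t) :
    ContinuousWithinAt (fun t => F.map (t - c) v) (Ici c) t := by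
  have h1 : ContinuousWithinAt (fun t : ℝ => ((t - c, v) : ℝ × X)) (Ici c) t := by
    apply Continuous.continuousWithinAt
    fun_prop
  have h2 := F.cont (t - c, v) ⟨by rw [mem_Ici]; linarith, mem_univ _⟩
  refine ContinuousWithinAt.comp (g := fun p : ℝ × X => F.map p.1 p.2)
    (f := fun t : ℝ => ((t - c, v) : ℝ × X)) (t := Ici 0 ×ˢ univ) h2 h1 ?_
  intro s hs
  rw [mem_Ici] at hs
  exact ⟨by rw [mem_Ici]; linarith, mem_univ _⟩

theorem concat_right (F : SemiFlow X) (T : ℝ) (hT : 0 < T) (w : ℕ → X) (t : ℝ) (ht : 0 ≤ t) :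
    Tendsto (concat F T w) (𝓝[≥] t) (𝓝 (concat F T w t)) := by
  set a := ⌊t / T⌋₊ with ha
  have h0 : (a:ℝ) * T ≤ t := by
    rw [← le_div_iff₀ hT]; exact Nat.floor_le (by positivity)
  have h1 : t < (a + 1) * T := by
    rw [← div_lt_iff₀ hT]; exact Nat.lt_floor_add_one _
  have h2 := (piece_cont F (w a) (a * T) t h0).mono (Ici_subset_Ici.mpr h0)
  have h3 : Tendsto (fun t => F.map (t - a * T) (w a)) (𝓝[≥] t) (𝓝 (concat F T w t)) := h2
  refine h3.congr' ?_
  filter_upwards [Ico_mem_nhdsGE h1] with s hs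
  unfold concat
  rw [floor_eq T hT a s (h0.trans hs.1) hs.2]

theorem concat_left (F : SemiFlow X) (T : ℝ) (hT : 0 < T) (w : ℕ → X) (t : ℝ) (a : ℕ)
    (h0 : a * T < t) (h1 : t ≤ (a + 1) * T) :
    Tendsto (concat F T w) (𝓝[<] t) (𝓝 (F.map (t - a * T) (w a))) := by
  have h2 := (piece_cont F (w a) (a * T) t h0.le)
  have h3 : Tendsto (fun t => F.map (t - a * T) (w a)) (𝓝[<] t) (𝓝 (F.map (t - a * T) (w a))) := by
    have h4 : ContinuousWithinAt (fun t => F.map (t - a * T) (w a)) (Ioo (a * T) t) t :=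
      h2.mono (fun s hs => hs.1.le)
    rw [ContinuousWithinAt, nhdsWithin_Ioo_eq_nhdsLT h0] at h4
    exact h4
  refine h3.congr' ?_
  filter_upwards [Ioo_mem_nhdsLT h0] with s hs
  unfold concat
  rw [floor_eq T hT a s hs.1.le (hs.2.trans_le h1)]

theorem exists_index (T : ℝ) (hT : 0 < T) (t : ℝ) (ht : 0 < t) :
    ∃ a : ℕ, (a:ℝ) * T < t ∧ t ≤ (a + 1) * T := by
  have h0 : 0 < t / T := by positivity
  have hpos : 0 < ⌈t / T⌉₊ := Nat.ceil_pos.mpr h0
  refine ⟨⌈t / T⌉₊ - 1, ?_, ?_⟩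
  · rw [← lt_div_iff₀ hT]
    exact Nat.lt_ceil.mp (by omega)
  · rw [← div_le_iff₀ hT]
    have := Nat.le_ceil (t / T)
    have e : ((⌈t / T⌉₊ - 1 : ℕ) : ℝ) + 1 = ⌈t / T⌉₊ := by
      rw [Nat.cast_sub (by omega)]; simp
    rw [e]; exact this

theorem map_to_flow (F : SemiFlow X) (T : ℝ) (hT : 0 < T) (x y : X)
    (h : LimitChainMap (F.map T) x y) : LimitChainFlow F x y := by
  rw [map_iff] at h
  rw [flow_iff]
  obtain ⟨K, hK, h⟩ := h
  refine ⟨sweep F T K, sweep_compact F T K hK, fun ε hε N => ?_⟩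
  set J : ℕ := ⌈1 / T⌉₊ + 1 with hJ
  obtain ⟨η, hη, hu⟩ := unif F T (sweep F (J * T) K) (sweep_compact F _ K hK) ε hε
  obtain ⟨δ, hδ, hprop⟩ := prop_disc F T hT K hK J η hη
  obtain ⟨m, hm, hm1, w, hw0, hwm, hwK, hw⟩ := h δ hδ (⌈max N 1 / T⌉₊)
  have hmT : max N 1 ≤ m * T := by
    rw [← div_le_iff₀ hT]
    exact (Nat.le_ceil _).trans (by exact_mod_cast hm)
  have hfl : ∀ t, 0 ≤ t → ((⌊t / T⌋₊ : ℕ) : ℝ) * T ≤ t := fun t ht => by
    rw [← le_div_iff₀ hT]; exact Nat.floor_le (by positivity)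
  have hfl2 : ∀ t, t < ((⌊t / T⌋₊ : ℕ) + 1 : ℝ) * T := fun t => by
    rw [← div_lt_iff₀ hT]; exact Nat.lt_floor_add_one _
  have hflm : ∀ t, t ≤ m * T → ⌊t / T⌋₊ ≤ m := fun t ht => by
    apply Nat.floor_le_of_le
    rwa [div_le_iff₀ hT]
  refine ⟨m * T, (le_max_left _ _).trans hmT, (le_max_right _ _).trans hmT, concat F T w,
    ⟨⟨(Finset.range (m + 1)).image (fun a : ℕ => (a:ℝ) * T), ?_⟩, ?_, ?_⟩, ?_, ?_, ?_, ?_⟩
  · intro t ht hts
    have hne : t ≠ (⌊t / T⌋₊ : ℕ) * T := by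
      intro heq
      apply hts
      rw [Finset.mem_image]
      exact ⟨⌊t / T⌋₊, Finset.mem_range.mpr (Nat.lt_succ_of_le (hflm t ht.2)), heq.symm⟩
    have hlt : ((⌊t / T⌋₊ : ℕ) : ℝ) * T < t := lt_of_le_of_ne (hfl t ht.1) hne.symm
    have h1 := concat_right F T hT w t ht.1
    have h2 := concat_left F T hT w t _ hlt (hfl2 t).le
    have h3 : ContinuousAt (concat F T w) t := by
      rw [ContinuousAt, ← nhdsLT_sup_nhdsGE]
      exact h2.sup h1
    exact h3.continuousWithinAt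
  · intro t ht _
    obtain ⟨a, ha1, ha2⟩ := exists_index T hT t ht
    exact ⟨_, concat_left F T hT w t a ha1 ha2⟩
  · intro t ht _
    exact ⟨_, (concat_right F T hT w t ht).mono_left (nhdsWithin_mono _ Ioi_subset_Ici_self)⟩
  · unfold concat
    simp only [zero_div, Nat.floor_zero, CharP.cast_eq_zero, zero_mul, sub_zero, F.zero]
    exact hw0
  · unfold concat
    have : ⌊(m:ℝ) * T / T⌋₊ = m := by
      rw [mul_div_cancel_right₀ _ hT.ne', Nat.floor_natCast]
    rw [this, sub_self, F.zero]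
    exact hwm
  · intro t ht
    refine mem_sweep F T K _ _ ?_ ?_ (hwK _ (hflm t ht.2))
    · have := hfl t ht.1; linarith
    · have := hfl2 t; linarith
  · intro t₀ t₁ h0 h01 h1 h11
    set a := ⌊t₀ / T⌋₊ with ha
    set b := ⌊t₁ / T⌋₊ with hb
    have hab : a ≤ b := Nat.floor_le_floor (div_le_div_of_nonneg_right h01.le hT.le)
    obtain ⟨j, hj⟩ := Nat.exists_eq_add_of_le hab
    have hjJ : j ≤ J := by
      have e1 := hfl t₁ (by linarith)
      have e2 := hfl2 t₀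
      rw [← hb] at e1
      rw [← ha] at e2
      rw [hj] at e1
      push_cast at e1
      have e3 : (j:ℝ) * T < 1 + T := by nlinarith
      have e4 : (j:ℝ) < 1 / T + 1 := by
        have : (1 / T + 1) * T = 1 + T := by field_simp
        nlinarith
      have e5 : (1 / T : ℝ) ≤ ⌈1 / T⌉₊ := Nat.le_ceil _
      have e6 : (j:ℝ) < J := by rw [hJ]; push_cast; linarith
      exact_mod_cast e6.le
    have hbm : b ≤ m := hflm t₁ h1
    have hd := hprop w m hwK hw j hjJ a (by omega)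
    have hb1 := hfl t₁ (by linarith)
    have hb2 := hfl2 t₁
    have ha1 := hfl t₀ h0
    rw [← hb] at hb1 hb2
    rw [← ha] at ha1
    have ej : (b:ℝ) = a + j := by rw [hj]; push_cast; ring
    have h5 : F.map (t₁ - t₀) (concat F T w t₀) = F.map (t₁ - b * T) (F.map (j * T) (w a)) := by
      unfold concat
      rw [← ha, ← F.add _ _ _ (by linarith) (by linarith), ← F.add _ _ _ (by linarith)
        (by positivity)]
      congr 1
      rw [ej]
      ring
    have h6 : concat F T w t₁ = F.map (t₁ - b * T) (w (a + j)) := by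
      unfold concat
      rw [← hb, hj]
    rw [h5, h6]
    have hjT : 0 ≤ (j:ℝ) * T := by positivity
    have hJT : 0 ≤ (J:ℝ) * T := by positivity
    refine hu _ ⟨by linarith, by linarith⟩ _ ⟨by linarith, by linarith⟩ _
      (mem_sweep F _ K _ _ hjT ?_ (hwK a (by omega))) _ (sub_sweep F _ hJT K (hwK _ (by omega)))
      (by rw [sub_self, abs_zero]; exact hη) hd
    have : (j:ℝ) ≤ J := by exact_mod_cast hjJ
    gcongr

/-- **Theorem.** For every metric space `X`, every semi-flow `F` on `X` and every `T > 0`, a point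
`y` is a limit chain point of `x` for `F` if and only if it is a limit chain point of `x` for the
time-`T` map `F^T`. No global attractor is needed. -/
theorem result : ∀ (X : Type) [MetricSpace X] (F : SemiFlow X) (T : ℝ), 0 < T → ∀ x y : X,
    LimitChainFlow F x y ↔ LimitChainMap (F.map T) x y :=
  fun _ _ F T hT x y => ⟨flow_to_map F T hT x y, map_to_flow F T hT x y⟩

end Pool.Agent.Results.MP_f2fc76_an.LimitChainTimeT
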